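import Mathlib
import Pool.Agent.H.MP_f836f4_co.A

namespace Pool.Agent.Results.MP_f836f4_co.Counter

theorem result : ∀ C : ℕ, ∃ (V : Type) (X : SimpleGraph V) (v₀ : V),
    X.Connected ∧ (∀ v, (X.neighborSet v).Finite) ∧
    (∀ σ : X ≃g X, (∃ v, σ v ≠ v) → {v | σ v ≠ v}.Infinite) ∧
    ∀ red : Set V, (∀ σ : X ≃g X, (∀ v, σ v ∈ red ↔ v ∈ red) → ∀ v, σ v = v) →
      ∃ r : ℕ, (C : ℕ∞) < ({v | X.dist v₀ v = r} ∩ red).encard := by
  intro C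
  refine ⟨Pool.Agent.H.MP_f836f4_co.V (C + 1), Pool.Agent.H.MP_f836f4_co.G (C + 1), none,
    Pool.Agent.H.MP_f836f4_co.conn _, Pool.Agent.H.MP_f836f4_co.locfin _, ?_, ?_⟩
  · rintro σ ⟨v, hv⟩ hfin
    exact hv (Pool.Agent.H.MP_f836f4_co.motion _ σ hfin v)
  · intro red hred
    by_contra hc
    push Not at hc
    obtain ⟨σ, h1, v, hv⟩ := Pool.Agent.H.MP_f836f4_co.main C red hc
    exact hv (hred σ h1 v)

end Pool.Agent.Results.MP_f836f4_co.Counter
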